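import Mathlib

namespace Pool.Agent.Results.MP_e3e9ef_lc.Chain

/-- The real value of a bit. -/
def bit (b : Bool) : ℝ := if b then 1 else 0

/-- The monomial `AND_S`. -/
def AND {ι : Type} (S : Finset ι) (x : ι → Bool) : ℝ := ∏ i ∈ S, bit (x i)

/-- `c` is the coefficient vector of the multilinear representation of `f`. -/
def IsRep {ι : Type} [Fintype ι] (f : (ι → Bool) → Bool) (c : Finset ι → ℝ) : Prop :=
  ∀ x, bit (f x) = ∑ S : Finset ι, c S * AND S x

/-- Mobius sparsity: the number of nonzero coefficients. -/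
noncomputable def spar {ι : Type} (c : Finset ι → ℝ) : ℕ := Set.ncard {S | c S ≠ 0}

/-- Mobius pattern complexity: the number of distinct vectors of values of the monomials in the
support. -/
noncomputable def pat {ι : Type} (c : Finset ι → ℝ) : ℕ :=
  Set.ncard (Set.range (fun (x : ι → Bool) (S : {S : Finset ι // c S ≠ 0}) => AND S.1 x))

def P {m : ℕ} (a : Fin m) (k : ℕ) : Finset (Fin m ⊕ Fin m) :=
  Finset.univ.filter (fun j => j = Sum.inr a ∨ ∃ i : Fin m, i.val < k ∧ j = Sum.inl i)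

theorem inr_mem {m : ℕ} (a b : Fin m) (k : ℕ) : Sum.inr b ∈ P a k ↔ b = a := by simp [P]
theorem inl_mem {m : ℕ} (a i : Fin m) (k : ℕ) : Sum.inl i ∈ P a k ↔ i.val < k := by simp [P]

noncomputable def cc (m : ℕ) (S : Finset (Fin m ⊕ Fin m)) : ℝ :=
  ∑ a : Fin m, ((if S = P a a then 1 else 0) - (if S = P a (a + 1) then 1 else 0))

def cond {m : ℕ} (x : Fin m ⊕ Fin m → Bool) (a : Fin m) : Prop :=
  x (.inr a) = true ∧ (∀ i : Fin m, i.val < a.val → x (.inl i) = true) ∧ x (.inl a) = false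

open Classical in
noncomputable def ff (m : ℕ) (x : Fin m ⊕ Fin m → Bool) : Bool := decide (∃ a, cond x a)

open Classical in
theorem AND_eq {ι : Type} (S : Finset ι) (x : ι → Bool) :
    AND S x = if ∀ i ∈ S, x i = true then 1 else 0 := by
  unfold AND
  split_ifs with h
  · exact Finset.prod_eq_one (fun i hi => by simp [bit, h i hi])
  · push Not at h
    obtain ⟨i, hi, h⟩ := h
    exact Finset.prod_eq_zero hi (by simp [bit, h])

theorem all_P {m : ℕ} (a : Fin m) (k : ℕ) (x : Fin m ⊕ Fin m → Bool) :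
    (∀ j ∈ P a k, x j = true) ↔
      x (.inr a) = true ∧ ∀ i : Fin m, i.val < k → x (.inl i) = true := by
  constructor
  · intro h
    exact ⟨h _ ((inr_mem _ _ _).2 rfl), fun i hi => h _ ((inl_mem _ _ _).2 hi)⟩
  · rintro ⟨h1, h2⟩ (i | i) hj
    · exact h2 i ((inl_mem _ _ _).1 hj)
    · rw [(inr_mem _ _ _).1 hj]; exact h1

open Classical in
theorem diff {m : ℕ} (a : Fin m) (x : Fin m ⊕ Fin m → Bool) :
    AND (P a a) x - AND (P a (a + 1)) x = if cond x a then 1 else 0 := by
  rw [AND_eq, AND_eq]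
  simp only [all_P]
  by_cases h1 : x (.inr a) = true ∧ ∀ i : Fin m, i.val < a.val → x (.inl i) = true
  · by_cases h2 : x (.inl a) = true
    · have h3 : x (.inr a) = true ∧ ∀ i : Fin m, i.val < a.val + 1 → x (.inl i) = true := by
        refine ⟨h1.1, fun i hi => ?_⟩
        rcases Nat.lt_succ_iff_lt_or_eq.1 hi with h | h
        · exact h1.2 i h
        · rw [Fin.ext h]; exact h2
      have h4 : ¬ cond x a := fun h => by simp [h.2.2] at h2
      rw [if_pos h1, if_pos h3, if_neg h4]; simp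
    · have h3 : ¬ (x (.inr a) = true ∧ ∀ i : Fin m, i.val < a.val + 1 → x (.inl i) = true) :=
        fun h => h2 (h.2 a (by omega))
      have h4 : cond x a := ⟨h1.1, h1.2, by simpa using h2⟩
      rw [if_pos h1, if_neg h3, if_pos h4]; simp
  · have h3 : ¬ (x (.inr a) = true ∧ ∀ i : Fin m, i.val < a.val + 1 → x (.inl i) = true) :=
      fun h => h1 ⟨h.1, fun i hi => h.2 i (by omega)⟩
    have h4 : ¬ cond x a := fun h => h1 ⟨h.1, h.2.1⟩
    rw [if_neg h1, if_neg h3, if_neg h4]; simp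

theorem rep (m : ℕ) : IsRep (ff m) (cc m) := by
  classical
  intro x
  have e : ∑ S : Finset (Fin m ⊕ Fin m), cc m S * AND S x
      = ∑ a : Fin m, (AND (P a a) x - AND (P a (a + 1)) x) := by
    simp only [cc, Finset.sum_mul]
    rw [Finset.sum_comm]
    refine Finset.sum_congr rfl (fun a _ => ?_)
    simp [sub_mul, Finset.sum_sub_distrib]
  rw [e]
  simp only [diff]
  by_cases h : ∃ a, cond x a
  · obtain ⟨a, ha⟩ := h
    have h1 : ff m x = true := by simp only [ff, decide_eq_true_eq]; exact ⟨a, ha⟩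
    rw [h1, Finset.sum_eq_single a]
    · simp [bit, ha]
    · intro b _ hb
      rw [if_neg]
      intro hc
      rcases lt_or_gt_of_ne (fun e => hb (Fin.ext e)) with h | h
      · have := ha.2.1 b h
        simp [hc.2.2] at this
      · have := hc.2.1 a h
        simp [ha.2.2] at this
    · simp
  · have h1 : ff m x = false := by simp only [ff, decide_eq_false_iff_not]; exact h
    push Not at h
    simp [h1, bit, h]

theorem spar_le (m : ℕ) : spar (cc m) ≤ 2 * m := by
  classical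
  have h : {S | cc m S ≠ 0} ⊆
      ((Finset.univ.image (fun a : Fin m => P a a) ∪
        Finset.univ.image (fun a : Fin m => P a (a + 1)) : Finset _) : Set _) := by
    intro S hS
    by_contra hh
    apply hS
    simp only [Finset.coe_union, Finset.coe_image, Finset.coe_univ, Set.image_univ,
      Set.mem_union, Set.mem_range, not_or, not_exists] at hh
    refine Finset.sum_eq_zero (fun a _ => ?_)
    rw [if_neg (Ne.symm (hh.1 a)), if_neg (Ne.symm (hh.2 a))]; simp
  refine (Set.ncard_le_ncard h (Finset.finite_toSet _)).trans ?_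
  rw [Set.ncard_coe_finset]
  refine (Finset.card_union_le _ _).trans ?_
  have h1 := Finset.card_image_le (s := (Finset.univ : Finset (Fin m))) (f := fun a => P a a)
  have h2 := Finset.card_image_le (s := (Finset.univ : Finset (Fin m))) (f := fun a => P a (a + 1))
  simp only [Finset.card_univ, Fintype.card_fin] at h1 h2
  omega

theorem cc_P {m : ℕ} (a : Fin m) : cc m (P a a) ≠ 0 := by
  have h1 : ∀ (b : Fin m) (k l : ℕ), P a k = P b l → a = b := fun b k l h =>
    (inr_mem b a l).1 (h ▸ (inr_mem a a k).2 rfl)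
  unfold cc
  rw [Finset.sum_eq_single a]
  · have : P a a ≠ P a (a + 1) := fun h => by
      have := (inl_mem a a a).1 (h ▸ (inl_mem a a (a + 1)).2 (by omega))
      omega
    simp [this]
  · intro b _ hb
    rw [if_neg (fun h => hb (h1 b _ _ h).symm), if_neg (fun h => hb (h1 b _ _ h).symm)]; simp
  · simp

theorem pat_ge (m : ℕ) : 2 ^ m ≤ pat (cc m) := by
  have hinj : Function.Injective (fun (y : Fin m → Bool) (S : {S // cc m S ≠ 0}) =>
      AND S.1 (Sum.elim (fun _ => true) y)) := by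
    intro y y' h
    funext a
    have := congrFun h ⟨P a a, cc_P a⟩
    simp only [AND_eq, all_P] at this
    cases h1 : y a <;> cases h2 : y' a <;> simp [h1, h2] at this ⊢
  have h1 := Nat.card_range_of_injective hinj
  rw [Nat.card_coe_set_eq] at h1
  have h2 : Nat.card (Fin m → Bool) = 2 ^ m := by simp
  rw [← h2, ← h1]
  exact Set.ncard_le_ncard (by rintro _ ⟨y, rfl⟩; exact ⟨_, rfl⟩) (Set.finite_range _)

theorem result :
    (∀ m : ℕ, ∃ (f : (Fin m ⊕ Fin m → Bool) → Bool) (c : Finset (Fin m ⊕ Fin m) → ℝ),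
      IsRep f c ∧ spar c ≤ 2 * m ∧ 2 ^ m ≤ pat c) ∧
    (∀ δ C : ℝ, 0 < δ → 0 < C →
      ∃ (m : ℕ) (f : (Fin m ⊕ Fin m → Bool) → Bool) (c : Finset (Fin m ⊕ Fin m) → ℝ),
        IsRep f c ∧ (2 : ℝ) ^ (C * (spar c : ℝ) ^ (1 - δ)) < pat c) := by
  refine ⟨fun m => ⟨ff m, cc m, rep m, spar_le m, pat_ge m⟩, fun δ C hδ hC => ?_⟩
  set d := min δ 1 with hd
  have hd0 : 0 < d := lt_min hδ one_pos
  have hd1 : d ≤ 1 := min_le_right _ _
  have hdδ : d ≤ δ := min_le_left _ _
  have t : Filter.Tendsto (fun m : ℕ => ((2 * m : ℕ) : ℝ) ^ d) Filter.atTop Filter.atTop :=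
    (tendsto_rpow_atTop hd0).comp (tendsto_natCast_atTop_atTop.comp
      (Filter.tendsto_id.const_mul_atTop' (by norm_num)))
  obtain ⟨m, h1, h2⟩ := ((t.eventually_gt_atTop (2 * C)).and (Filter.eventually_ge_atTop 1)).exists
  refine ⟨m, ff m, cc m, rep m, ?_⟩
  have hM : (1 : ℝ) ≤ ((2 * m : ℕ) : ℝ) := by exact_mod_cast (by omega : 1 ≤ 2 * m)
  have a1 : (spar (cc m) : ℝ) ^ (1 - δ) ≤ ((2 * m : ℕ) : ℝ) ^ (1 - d) := by
    rcases Nat.eq_zero_or_pos (spar (cc m)) with h | h
    · rw [h, Nat.cast_zero]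
      exact (Real.zero_rpow_le_one _).trans (Real.one_le_rpow hM (by linarith))
    · refine (Real.rpow_le_rpow_of_exponent_le (by exact_mod_cast h)
        (show 1 - δ ≤ 1 - d by linarith)).trans ?_
      exact Real.rpow_le_rpow (by positivity) (by exact_mod_cast spar_le m) (by linarith)
  have a2 : ((2 * m : ℕ) : ℝ) ^ d * ((2 * m : ℕ) : ℝ) ^ (1 - d) = 2 * m := by
    rw [← Real.rpow_add (by linarith)]; simp
  have a3 : (0 : ℝ) < ((2 * m : ℕ) : ℝ) ^ (1 - d) := by positivity
  have a4 : C * (spar (cc m) : ℝ) ^ (1 - δ) < (m : ℝ) := by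
    have := mul_le_mul_of_nonneg_left a1 hC.le
    nlinarith [mul_lt_mul_of_pos_right h1 a3]
  calc (2 : ℝ) ^ (C * (spar (cc m) : ℝ) ^ (1 - δ)) < 2 ^ (m : ℝ) :=
        Real.rpow_lt_rpow_of_exponent_lt (by norm_num) a4
    _ = ((2 ^ m : ℕ) : ℝ) := by rw [Real.rpow_natCast]; push_cast; rfl
    _ ≤ pat (cc m) := by exact_mod_cast pat_ge m

end Pool.Agent.Results.MP_e3e9ef_lc.Chain
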